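import Mathlib

/-!
# MP_f91e62_co (Q1, k = 3): non-spanning members are needed

Let `l ≥ 2`.  Every covering of order `l` of the complete 3-graph on `n` vertices by `m` complete
3-partite 3-graphs of which `t` are not spanning satisfies
`n ≤ (2 m + t + 1) ^ (l - 1) * (3 t + 1) + 1`.  So a covering by spanning members has
`Ω (n ^ (1 / (l - 1)))` members, not `O (n ^ (1 / l))`, and in a covering with `O (n ^ (1 / l))`
members, as conjectured, a positive proportion of the members is not spanning.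

The proof: members are colourings `V → Fin 4`, with colour 3 for the vertices outside.  For a
triple let `a` and `b` be the numbers of spanning and of non-spanning members which contain it.
For spanning members the sign `(-1) ^ a` is `s u v * s v w * s u w`, and for `1 ≤ a + b ≤ l` it is
a polynomial in `a`, `b` of degree at most `l` without the monomial `a ^ l`, with value `1 - 2 ^ l`
at `a = b = 0`.  A vector `c` orthogonal to all products of `l - 1` class indicators, and of these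
with a class indicator of a non-spanning member, satisfies `S C S = K (C S + S C) - 2 K C`,
`K = 2 ^ l`, and then `c v₀ = 0` forces `c = 0`.

For `l = 2` and `l = 3` the exponent `1 / (l - 1)` is the right one for spanning coverings: the
examples are `({< j}, {j}, {> j})`, and the same in the three coordinates of the points
`(x, x + a, x + 2 a)`, `x < N`, `a` in a large set without three-term progressions (Behrend).
-/

open Finset

namespace Pool.Agent.Results.MP_f91e62_co.SpanningMembers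

/-- `e` is an edge of the complete `k`-partite `k`-graph with parts `X 0, …, X (k-1)`. -/
def IsEdge {n k : ℕ} (X : Fin k → Finset (Fin n)) (e : Finset (Fin n)) : Prop :=
  ∃ x : Fin k → Fin n, (∀ j, x j ∈ X j) ∧ e = univ.image x

open Classical in
/-- A `k`-partite covering of order `l` of the complete `k`-graph on `n` vertices, with `m`
members. -/
def IsCovering (n k l m : ℕ) (X : Fin m → Fin k → Finset (Fin n)) : Prop :=
  (∀ i j, (X i j).Nonempty) ∧ (∀ i j j', j ≠ j' → Disjoint (X i j) (X i j')) ∧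
    ∀ e : Finset (Fin n), e.card = k →
      1 ≤ (univ.filter (fun i => IsEdge (X i) e)).card ∧
        (univ.filter (fun i => IsEdge (X i) e)).card ≤ l

/-- The parts cover all the vertices. -/
def Spanning {n k : ℕ} (X : Fin k → Finset (Fin n)) : Prop := ∀ v, ∃ j, v ∈ X j

set_option linter.unusedSectionVars false

section core

/-- `f` is a linear combination of the functions `G k` -/
def LinG {V K : Type*} [Fintype K] (G : K → V → ℝ) (f : V → ℝ) : Prop :=
  ∃ α : K → ℝ, ∀ w, f w = ∑ k, α k * G k w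

section lin
variable {V K : Type*} [Fintype K] (G : K → V → ℝ)

lemma lin_gen [DecidableEq K] (k : K) : LinG G (G k) :=
  ⟨fun k' => if k' = k then 1 else 0, fun w => by simp⟩

lemma lin_zero : LinG G (fun _ => 0) := ⟨fun _ => 0, fun w => by simp⟩

lemma lin_add {f g : V → ℝ} (hf : LinG G f) (hg : LinG G g) : LinG G (fun w => f w + g w) := by
  obtain ⟨α, hα⟩ := hf
  obtain ⟨β, hβ⟩ := hg
  refine ⟨fun k => α k + β k, fun w => ?_⟩
  show f w + g w = ∑ k, (α k + β k) * G k w
  rw [hα, hβ, ← sum_add_distrib]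
  exact sum_congr rfl fun k _ => by ring

lemma lin_neg {f : V → ℝ} (hf : LinG G f) : LinG G (fun w => - f w) := by
  obtain ⟨α, hα⟩ := hf
  refine ⟨fun k => - α k, fun w => ?_⟩
  show - f w = ∑ k, (- α k) * G k w
  rw [hα, ← sum_neg_distrib]
  exact sum_congr rfl fun k _ => by ring

lemma lin_sum {ι : Type*} (f : ι → V → ℝ) (S : Finset ι) (hf : ∀ i ∈ S, LinG G (f i)) :
    LinG G (fun w => ∑ i ∈ S, f i w) := by
  classical
  induction S using Finset.induction_on with
  | empty => simpa using lin_zero G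
  | insert i S hi ih =>
    have := lin_add G (hf i (mem_insert_self _ _)) (ih fun j hj => hf j (mem_insert_of_mem hj))
    simpa [sum_insert hi] using this

end lin

variable {V : Type*} [Fintype V] [DecidableEq V] {ι : Type*} [Fintype ι] [DecidableEq ι]

/-- sign of a pair for one colouring -/
def sg (φ : ι → V → Fin 4) (i : ι) (u v : V) : ℝ := if φ i u = φ i v then 1 else -1

/-- sign of a pair -/
noncomputable def ss (φ : ι → V → Fin 4) (S : Finset ι) (u v : V) : ℝ := ∏ i ∈ S, sg φ i u v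

/-- rainbow indicator (colour 3 means: outside) -/
def rb (φ : ι → V → Fin 4) (i : ι) (u v w : V) : ℕ :=
  if (φ i u ≠ φ i v ∧ φ i v ≠ φ i w ∧ φ i u ≠ φ i w) ∧ φ i u ≠ 3 ∧ φ i v ≠ 3 ∧ φ i w ≠ 3
  then 1 else 0

/-- number of rainbow colourings in `S` -/
def RS (φ : ι → V → Fin 4) (S : Finset ι) (u v w : V) : ℕ := ∑ i ∈ S, rb φ i u v w

lemma sg_comm (φ : ι → V → Fin 4) (i : ι) (u v : V) : sg φ i u v = sg φ i v u := by
  unfold sg; simp only [eq_comm]

lemma ss_comm (φ : ι → V → Fin 4) (S : Finset ι) (u v : V) : ss φ S u v = ss φ S v u := by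
  unfold ss; exact prod_congr rfl fun i _ => sg_comm φ i u v

lemma ss_self (φ : ι → V → Fin 4) (S : Finset ι) (u : V) : ss φ S u u = 1 := by
  unfold ss sg; simp

lemma sg_sq (φ : ι → V → Fin 4) (i : ι) (u v : V) : sg φ i u v * sg φ i u v = 1 := by
  unfold sg; split_ifs <;> norm_num

lemma ss_sq (φ : ι → V → Fin 4) (S : Finset ι) (u v : V) : ss φ S u v * ss φ S u v = 1 := by
  unfold ss; rw [← prod_mul_distrib]; exact prod_eq_one fun i _ => sg_sq φ i u v

lemma sg_triple (φ : ι → V → Fin 4) (i : ι) (h : ∀ v, φ i v ≠ 3) (u v w : V) :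
    sg φ i u v * sg φ i v w * sg φ i u w = (-1 : ℝ) ^ rb φ i u v w := by
  have hu := h u
  have hv := h v
  have hw := h w
  unfold sg rb
  revert hu hv hw
  generalize φ i u = a
  generalize φ i v = b
  generalize φ i w = c
  fin_cases a <;> fin_cases b <;> fin_cases c <;> simp

lemma ss_triple (φ : ι → V → Fin 4) (S : Finset ι) (h : ∀ i ∈ S, ∀ v, φ i v ≠ 3) (u v w : V) :
    ss φ S u v * ss φ S v w * ss φ S u w = (-1 : ℝ) ^ (RS φ S u v w) := by
  unfold ss RS
  rw [← prod_mul_distrib, ← prod_mul_distrib, ← Finset.prod_pow_eq_pow_sum]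
  exact prod_congr rfl fun i hi => sg_triple φ i (h i hi) u v w

lemma rb_left (φ : ι → V → Fin 4) (i : ι) (u v : V) : rb φ i u v u = 0 := by
  simp [rb]

lemma rb_right (φ : ι → V → Fin 4) (i : ι) (u v : V) : rb φ i u v v = 0 := by
  simp [rb]

/-- a polynomial in `a`, `b` of degree at most `L + 1`, without the monomial `a ^ (L + 1)`, which
is `(-1) ^ a` for `1 ≤ a + b ≤ L + 1` -/
noncomputable def PP (L a b : ℕ) : ℝ :=
  ∑ j ∈ range (L + 1), (-2 : ℝ) ^ j * (a.choose j : ℝ) -
    2 ^ (L + 1) * (∑ j ∈ range (L + 1), (-1 : ℝ) ^ j * ((a + b).choose j : ℝ) +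
      (-1) ^ (L + 1) * (((a + b).choose (L + 1) : ℝ) - (a.choose (L + 1) : ℝ)))

lemma sum_zero_choose (x : ℝ) (L : ℕ) :
    ∑ j ∈ range (L + 1), x ^ j * ((0 : ℕ).choose j : ℝ) = 1 := by
  rw [sum_eq_single_of_mem 0 (by simp)]
  · simp
  · intro j _ hj
    obtain ⟨i, rfl⟩ := Nat.exists_eq_succ_of_ne_zero hj
    simp

lemma PP_zero (L : ℕ) : PP L 0 0 = 1 - 2 ^ (L + 1) := by
  unfold PP
  rw [sum_zero_choose, add_zero, sum_zero_choose]
  simp

lemma sum_choose_ext (x : ℝ) (R L : ℕ) (h : R ≤ L + 1) :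
    ∑ j ∈ range (L + 2), x ^ j * (R.choose j : ℝ) = (1 + x) ^ R := by
  rw [add_comm 1 x, add_pow]
  simp only [one_pow, mul_one]
  symm
  apply sum_subset
  · intro j hj
    rw [mem_range] at hj ⊢
    omega
  · intro j _ hj
    rw [mem_range] at hj
    rw [Nat.choose_eq_zero_of_lt (by omega)]
    simp

lemma PP_eq (L a b : ℕ) (h1 : 1 ≤ a + b) (h2 : a + b ≤ L + 1) : PP L a b = (-1) ^ a := by
  have e1 := sum_choose_ext (-2) a L (by omega)
  have e2 := sum_choose_ext (-1) (a + b) L h2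
  rw [sum_range_succ] at e1 e2
  have h3 : (1 + (-1 : ℝ)) ^ (a + b) = 0 := by
    rw [add_neg_cancel]; exact zero_pow (by omega)
  rw [h3] at e2
  have h4 : (1 + (-2 : ℝ)) ^ a = (-1) ^ a := by norm_num
  rw [h4] at e1
  have h6 : (-2 : ℝ) ^ (L + 1) = (-1) ^ (L + 1) * 2 ^ (L + 1) := by rw [← mul_pow]; norm_num
  rw [h6] at e1
  unfold PP
  linear_combination e1 - 2 ^ (L + 1) * e2

/-- generators: the constant 1, the indicators of the first two classes of every colouring, and
of the third class for the colourings outside `S` -/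
noncomputable def gen (φ : ι → V → Fin 4) (S : Finset ι)
    (k : Option ((ι × Fin 2) ⊕ {i // i ∉ S})) (w : V) : ℝ :=
  match k with
  | none => 1
  | some (Sum.inl (i, a)) => if φ i w = a.castSucc.castSucc then 1 else 0
  | some (Sum.inr i) => if φ i.1 w = 2 then 1 else 0

/-- generators: the constant 1 and the indicators of the classes of the colourings outside `S` -/
noncomputable def genN (φ : ι → V → Fin 4) (S : Finset ι)
    (k : Option ({i // i ∉ S} × Fin 3)) (w : V) : ℝ :=
  match k with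
  | none => 1
  | some (i, a) => if φ i.1 w = a.castSucc then 1 else 0

lemma lin_col (φ : ι → V → Fin 4) (S : Finset ι) (hS : ∀ i ∈ S, ∀ v, φ i v ≠ 3) (i : ι)
    (a : Fin 4) (ha : a ≠ 3) : LinG (gen φ S) (fun w => if φ i w = a then 1 else 0) := by
  have h0 := lin_gen (gen φ S) (some (Sum.inl (i, 0)))
  have h1 := lin_gen (gen φ S) (some (Sum.inl (i, 1)))
  have hn := lin_gen (gen φ S) none
  fin_cases a
  · convert h0 using 2 with w
    rfl
  · convert h1 using 2 with w
    rfl
  · by_cases hi : i ∈ S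
    · have := lin_add _ hn (lin_neg _ (lin_add _ h0 h1))
      convert this using 2 with w
      have h3 := hS i hi w
      simp only [gen]
      revert h3
      generalize φ i w = x
      fin_cases x <;> simp
    · have h2 := lin_gen (gen φ S) (some (Sum.inr ⟨i, hi⟩))
      convert h2 using 2 with w
      rfl
  · exact absurd rfl ha

lemma linN_col (φ : ι → V → Fin 4) (S : Finset ι) (i : ι) (hi : i ∉ S)
    (a : Fin 4) (ha : a ≠ 3) : LinG (genN φ S) (fun w => if φ i w = a then 1 else 0) := by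
  fin_cases a
  · have h0 := lin_gen (genN φ S) (some (⟨i, hi⟩, 0))
    convert h0 using 2 with w
    rfl
  · have h0 := lin_gen (genN φ S) (some (⟨i, hi⟩, 1))
    convert h0 using 2 with w
    rfl
  · have h0 := lin_gen (genN φ S) (some (⟨i, hi⟩, 2))
    convert h0 using 2 with w
    rfl
  · exact absurd rfl ha

lemma lin_rb {K : Type*} [Fintype K] (G : K → V → ℝ) (φ : ι → V → Fin 4) (i : ι)
    (hcol : ∀ a : Fin 4, a ≠ 3 → LinG G (fun w => if φ i w = a then 1 else 0)) (u v : V) :
    LinG G (fun w => (rb φ i u v w : ℝ)) := by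
  by_cases huv : φ i u ≠ φ i v ∧ φ i u ≠ 3 ∧ φ i v ≠ 3
  · obtain ⟨a, ha3, ha⟩ : ∃ a : Fin 4, a ≠ 3 ∧ ∀ b : Fin 4,
        (φ i v ≠ b ∧ φ i u ≠ b ∧ b ≠ 3) ↔ b = a := by
      revert huv
      generalize φ i u = x
      generalize φ i v = y
      revert x y
      decide
    have := hcol a ha3
    convert this using 2 with w
    unfold rb
    by_cases hw : φ i w = a
    · have h := (ha (φ i w)).2 hw
      rw [if_pos ⟨⟨huv.1, h.1, h.2.1⟩, huv.2.1, huv.2.2, h.2.2⟩, if_pos hw]; simp
    · have : ¬ (φ i v ≠ φ i w ∧ φ i u ≠ φ i w ∧ φ i w ≠ 3) := fun h => hw ((ha _).1 h)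
      rw [if_neg (fun h => this ⟨h.1.2.1, h.1.2.2, h.2.2.2⟩), if_neg hw]; simp
  · have := lin_zero G
    convert this using 2 with w
    unfold rb
    rw [if_neg (fun h => huv ⟨h.1.1, h.2.1, h.2.2.1⟩)]
    simp

lemma lin_RS {K : Type*} [Fintype K] (G : K → V → ℝ) (φ : ι → V → Fin 4) (T : Finset ι)
    (hcol : ∀ i ∈ T, ∀ a : Fin 4, a ≠ 3 → LinG G (fun w => if φ i w = a then 1 else 0))
    (u v : V) : LinG G (fun w => (RS φ T u v w : ℝ)) := by
  have := lin_sum G (fun i w => (rb φ i u v w : ℝ)) T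
    (fun i hi => lin_rb G φ i (hcol i hi) u v)
  convert this using 2 with w
  simp [RS]

/-- `c` is orthogonal to the products of `L` generators and one generator outside `S` -/
def Kill (φ : ι → V → Fin 4) (S : Finset ι) (L : ℕ) (c : V → ℝ) : Prop :=
  ∀ (g : Fin L → Option ((ι × Fin 2) ⊕ {i // i ∉ S})) (h : Option ({i // i ∉ S} × Fin 3)),
    ∑ w, c w * ((∏ j, gen φ S (g j) w) * genN φ S h w) = 0

lemma kill_prod (φ : ι → V → Fin 4) (S : Finset ι) (L : ℕ) (c : V → ℝ) (hc : Kill φ S L c)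
    (F : Fin L → V → ℝ) (hF : ∀ j, LinG (gen φ S) (F j)) (H : V → ℝ)
    (hH : LinG (genN φ S) H) : ∑ w, c w * ((∏ j, F j w) * H w) = 0 := by
  classical
  choose α hα using hF
  obtain ⟨β, hβ⟩ := hH
  have : ∀ w, c w * ((∏ j, F j w) * H w) =
      ∑ g : Fin L → Option ((ι × Fin 2) ⊕ {i // i ∉ S}), ∑ h : Option ({i // i ∉ S} × Fin 3),
        ((∏ j, α j (g j)) * β h) * (c w * ((∏ j, gen φ S (g j) w) * genN φ S h w)) := by
    intro w
    have h1 : ∏ j, F j w = ∑ g : Fin L → Option ((ι × Fin 2) ⊕ {i // i ∉ S}),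
        ∏ j, (α j (g j) * gen φ S (g j) w) := by
      rw [prod_congr rfl fun j _ => hα j w]
      rw [Finset.prod_univ_sum]
      simp
    rw [h1, hβ w, sum_mul_sum, mul_sum]
    apply sum_congr rfl
    intro g _
    rw [mul_sum]
    apply sum_congr rfl
    intro h _
    rw [prod_mul_distrib]; ring
  rw [sum_congr rfl fun w _ => this w, sum_comm]
  apply sum_eq_zero
  intro g _
  rw [sum_comm]
  apply sum_eq_zero
  intro h _
  rw [← mul_sum, hc g h, mul_zero]

lemma kill_pq (φ : ι → V → Fin 4) (S : Finset ι) (L : ℕ) (c : V → ℝ) (hc : Kill φ S L c)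
    {a b H : V → ℝ} (ha : LinG (gen φ S) a) (hb : LinG (gen φ S) b)
    (hH : LinG (genN φ S) H) (p q : ℕ) (hpq : p + q ≤ L) :
    ∑ w, c w * (a w ^ p * b w ^ q * H w) = 0 := by
  classical
  obtain ⟨d, rfl⟩ := Nat.exists_eq_add_of_le hpq
  have := kill_prod φ S (p + q + d) c hc
    (Fin.addCases (Fin.addCases (fun _ => a) (fun _ => b)) (fun _ => gen φ S none)) (by
      intro t
      refine Fin.addCases (fun t => ?_) (fun t => ?_) t
      · rw [Fin.addCases_left]
        refine Fin.addCases (fun t => ?_) (fun t => ?_) t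
        · rw [Fin.addCases_left]; exact ha
        · rw [Fin.addCases_right]; exact hb
      · rw [Fin.addCases_right]; exact lin_gen (gen φ S) none) H hH
  rw [← this]
  apply sum_congr rfl
  intro w _
  rw [Fin.prod_univ_add, Fin.prod_univ_add]
  simp [gen]

lemma choose_step (j r : ℕ) :
    ((r.choose (j + 1) : ℕ) : ℝ) * ((j : ℝ) + 1) = (r.choose j : ℝ) * ((r : ℝ) - j) := by
  rcases le_or_gt j r with hjr | hjr
  · have := Nat.choose_succ_right_eq r j
    have h5 : ((r.choose (j + 1) * (j + 1) : ℕ) : ℝ) = ((r.choose j * (r - j) : ℕ) : ℝ) := by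
      rw [this]
    push_cast [Nat.cast_sub hjr] at h5
    exact h5
  · rw [Nat.choose_eq_zero_of_lt hjr, Nat.choose_eq_zero_of_lt (by omega)]
    simp

lemma kill_mono (φ : ι → V → Fin 4) (S : Finset ι) (hS : ∀ i ∈ S, ∀ v, φ i v ≠ 3) (L : ℕ)
    (c : V → ℝ) (hc : Kill φ S L c) (u v : V) (p q : ℕ)
    (hpq : p + q ≤ L ∨ (p + q ≤ L + 1 ∧ 1 ≤ q)) :
    ∑ w, c w * ((RS φ S u v w : ℝ) ^ p * (RS φ Sᶜ u v w : ℝ) ^ q) = 0 := by
  have ha := lin_RS (gen φ S) φ S (fun i _ a h => lin_col φ S hS i a h) u v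
  have hb := lin_RS (gen φ S) φ Sᶜ (fun i _ a h => lin_col φ S hS i a h) u v
  have hbN := lin_RS (genN φ S) φ Sᶜ
    (fun i hi a h => linN_col φ S i (mem_compl.1 hi) a h) u v
  have h1 := lin_gen (genN φ S) none
  rcases hpq with h | ⟨h, hq⟩
  · have := kill_pq φ S L c hc ha hb h1 p q h
    rw [← this]
    exact sum_congr rfl fun w _ => by simp [genN]
  · obtain ⟨q', rfl⟩ : ∃ q', q = q' + 1 := ⟨q - 1, by omega⟩
    have := kill_pq φ S L c hc ha hb hbN p q' (by omega)
    rw [← this]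
    exact sum_congr rfl fun w _ => by rw [pow_succ]; ring

lemma kill_bin0 (φ : ι → V → Fin 4) (S : Finset ι) (hS : ∀ i ∈ S, ∀ v, φ i v ≠ 3) (L : ℕ)
    (c : V → ℝ) (hc : Kill φ S L c) (u v : V) (j : ℕ) : ∀ p q : ℕ,
    (p + j + q ≤ L ∨ (p + j + q ≤ L + 1 ∧ 1 ≤ j + q)) →
    ∑ w, c w * (((RS φ Sᶜ u v w).choose j : ℝ) *
      ((RS φ S u v w : ℝ) ^ p * (RS φ Sᶜ u v w : ℝ) ^ q)) = 0 := by
  induction j with
  | zero =>
    intro p q h
    have := kill_mono φ S hS L c hc u v p q (by omega)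
    simpa using this
  | succ j ih =>
    intro p q h
    have h1 := ih p (q + 1) (by omega)
    have h2 := ih p q (by omega)
    have h3 : ((j : ℝ) + 1) * ∑ w, c w * (((RS φ Sᶜ u v w).choose (j + 1) : ℝ) *
        ((RS φ S u v w : ℝ) ^ p * (RS φ Sᶜ u v w : ℝ) ^ q)) =
        (∑ w, c w * (((RS φ Sᶜ u v w).choose j : ℝ) *
          ((RS φ S u v w : ℝ) ^ p * (RS φ Sᶜ u v w : ℝ) ^ (q + 1)))) -
        j * ∑ w, c w * (((RS φ Sᶜ u v w).choose j : ℝ) *
          ((RS φ S u v w : ℝ) ^ p * (RS φ Sᶜ u v w : ℝ) ^ q)) := by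
      rw [mul_sum, mul_sum, ← sum_sub_distrib]
      apply sum_congr rfl
      intro w _
      have h4 := choose_step j (RS φ Sᶜ u v w)
      rw [pow_succ]
      linear_combination (c w * ((RS φ S u v w : ℝ) ^ p * (RS φ Sᶜ u v w : ℝ) ^ q)) * h4
    rw [h1, h2, mul_zero, sub_zero] at h3
    have h7 : ((j : ℝ) + 1) ≠ 0 := by positivity
    exact (mul_eq_zero.1 h3).resolve_left h7

lemma kill_bin (φ : ι → V → Fin 4) (S : Finset ι) (hS : ∀ i ∈ S, ∀ v, φ i v ≠ 3) (L : ℕ)
    (c : V → ℝ) (hc : Kill φ S L c) (u v : V) (j i : ℕ) : ∀ p : ℕ,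
    (p + i + j ≤ L ∨ (p + i + j ≤ L + 1 ∧ 1 ≤ j)) →
    ∑ w, c w * (((RS φ S u v w).choose i : ℝ) * ((RS φ Sᶜ u v w).choose j : ℝ) *
      (RS φ S u v w : ℝ) ^ p) = 0 := by
  induction i with
  | zero =>
    intro p h
    have := kill_bin0 φ S hS L c hc u v j p 0 (by omega)
    simpa using this
  | succ i ih =>
    intro p h
    have h1 := ih (p + 1) (by omega)
    have h2 := ih p (by omega)
    have h3 : ((i : ℝ) + 1) * ∑ w, c w * (((RS φ S u v w).choose (i + 1) : ℝ) *
        ((RS φ Sᶜ u v w).choose j : ℝ) * (RS φ S u v w : ℝ) ^ p) =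
        (∑ w, c w * (((RS φ S u v w).choose i : ℝ) * ((RS φ Sᶜ u v w).choose j : ℝ) *
          (RS φ S u v w : ℝ) ^ (p + 1))) -
        i * ∑ w, c w * (((RS φ S u v w).choose i : ℝ) * ((RS φ Sᶜ u v w).choose j : ℝ) *
          (RS φ S u v w : ℝ) ^ p) := by
      rw [mul_sum, mul_sum, ← sum_sub_distrib]
      apply sum_congr rfl
      intro w _
      have h4 := choose_step i (RS φ S u v w)
      rw [pow_succ]
      linear_combination
        (c w * (((RS φ Sᶜ u v w).choose j : ℝ) * (RS φ S u v w : ℝ) ^ p)) * h4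
    rw [h1, h2, mul_zero, sub_zero] at h3
    have h7 : ((i : ℝ) + 1) ≠ 0 := by positivity
    exact (mul_eq_zero.1 h3).resolve_left h7

lemma kill_PP (φ : ι → V → Fin 4) (S : Finset ι) (hS : ∀ i ∈ S, ∀ v, φ i v ≠ 3) (L : ℕ)
    (c : V → ℝ) (hc : Kill φ S L c) (u v : V) :
    ∑ w, c w * PP L (RS φ S u v w) (RS φ Sᶜ u v w) = 0 := by
  have k1 : ∀ j, j ≤ L → ∑ w, c w * ((RS φ S u v w).choose j : ℝ) = 0 := by
    intro j hj
    have := kill_bin φ S hS L c hc u v 0 j 0 (by omega)
    simpa using this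
  have k2 : ∀ j, j ≤ L →
      ∑ w, c w * ((RS φ S u v w + RS φ Sᶜ u v w).choose j : ℝ) = 0 := by
    intro j hj
    have : ∀ w, c w * ((RS φ S u v w + RS φ Sᶜ u v w).choose j : ℝ) =
        ∑ ij ∈ antidiagonal j, c w * (((RS φ S u v w).choose ij.1 : ℝ) *
          ((RS φ Sᶜ u v w).choose ij.2 : ℝ)) := by
      intro w
      rw [Nat.add_choose_eq]
      push_cast
      rw [mul_sum]
    rw [sum_congr rfl fun w _ => this w, sum_comm]
    apply sum_eq_zero
    intro ij hij
    rw [HasAntidiagonal.mem_antidiagonal] at hij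
    have := kill_bin φ S hS L c hc u v ij.2 ij.1 0 (by omega)
    simpa using this
  have k3 : ∑ w, c w * (((RS φ S u v w + RS φ Sᶜ u v w).choose (L + 1) : ℝ) -
      ((RS φ S u v w).choose (L + 1) : ℝ)) = 0 := by
    have : ∀ w, c w * (((RS φ S u v w + RS φ Sᶜ u v w).choose (L + 1) : ℝ) -
        ((RS φ S u v w).choose (L + 1) : ℝ)) =
        ∑ ij ∈ antidiagonal L, c w * (((RS φ S u v w).choose ij.1 : ℝ) *
          ((RS φ Sᶜ u v w).choose (ij.2 + 1) : ℝ)) := by
      intro w
      rw [Nat.add_choose_eq, Finset.Nat.sum_antidiagonal_succ']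
      push_cast
      simp only [Nat.choose_zero_right, Nat.cast_one, mul_one]
      rw [← mul_sum]
      ring
    rw [sum_congr rfl fun w _ => this w, sum_comm]
    apply sum_eq_zero
    intro ij hij
    rw [HasAntidiagonal.mem_antidiagonal] at hij
    have := kill_bin φ S hS L c hc u v (ij.2 + 1) ij.1 0 (by omega)
    simpa using this
  have hsplit : ∀ w, c w * PP L (RS φ S u v w) (RS φ Sᶜ u v w) =
      ∑ j ∈ range (L + 1), (-2 : ℝ) ^ j * (c w * ((RS φ S u v w).choose j : ℝ)) -
        2 ^ (L + 1) * (∑ j ∈ range (L + 1), (-1 : ℝ) ^ j *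
          (c w * ((RS φ S u v w + RS φ Sᶜ u v w).choose j : ℝ))) -
        2 ^ (L + 1) * (-1) ^ (L + 1) *
          (c w * (((RS φ S u v w + RS φ Sᶜ u v w).choose (L + 1) : ℝ) -
            ((RS φ S u v w).choose (L + 1) : ℝ))) := by
    intro w
    unfold PP
    have e1 : ∑ j ∈ range (L + 1), (-2 : ℝ) ^ j * (c w * ((RS φ S u v w).choose j : ℝ)) =
        c w * ∑ j ∈ range (L + 1), (-2 : ℝ) ^ j * ((RS φ S u v w).choose j : ℝ) := by
      rw [mul_sum]; exact sum_congr rfl fun j _ => by ring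
    have e2 : ∑ j ∈ range (L + 1), (-1 : ℝ) ^ j *
          (c w * ((RS φ S u v w + RS φ Sᶜ u v w).choose j : ℝ)) =
        c w * ∑ j ∈ range (L + 1), (-1 : ℝ) ^ j *
          ((RS φ S u v w + RS φ Sᶜ u v w).choose j : ℝ) := by
      rw [mul_sum]; exact sum_congr rfl fun j _ => by ring
    rw [e1, e2]; ring
  rw [sum_congr rfl fun w _ => hsplit w, sum_sub_distrib, sum_sub_distrib, ← mul_sum, ← mul_sum,
    k3, sum_comm, sum_comm (s := univ) (t := range (L + 1))]
  rw [sum_eq_zero (s := range (L + 1)) (f := fun j =>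
    ∑ w, (-2 : ℝ) ^ j * (c w * ((RS φ S u v w).choose j : ℝ)))
    (fun j hj => by rw [← mul_sum, k1 j (by rw [mem_range] at hj; omega), mul_zero])]
  rw [sum_eq_zero (s := range (L + 1)) (f := fun j =>
    ∑ w, (-1 : ℝ) ^ j * (c w * ((RS φ S u v w + RS φ Sᶜ u v w).choose j : ℝ)))
    (fun j hj => by rw [← mul_sum, k2 j (by rw [mem_range] at hj; omega), mul_zero])]
  ring

lemma kill_one (φ : ι → V → Fin 4) (S : Finset ι) (L : ℕ) (c : V → ℝ) (hc : Kill φ S L c) :
    ∑ w, c w = 0 := by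
  have := hc (fun _ => none) none
  simpa [gen, genN] using this

lemma scs (φ : ι → V → Fin 4) (S : Finset ι) (hS : ∀ i ∈ S, ∀ v, φ i v ≠ 3) (L : ℕ)
    (c : V → ℝ) (hc : Kill φ S L c)
    (hR : ∀ u v w, u ≠ v → v ≠ w → u ≠ w →
      1 ≤ RS φ S u v w + RS φ Sᶜ u v w ∧ RS φ S u v w + RS φ Sᶜ u v w ≤ L + 1)
    (u v : V) (huv : u ≠ v) :
    ∑ w, ss φ S u w * c w * ss φ S w v = 2 ^ (L + 1) * (ss φ S u v * (c u + c v)) := by
  have key : ∀ w, ss φ S u v * (ss φ S u w * c w * ss φ S w v) =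
      (c w * PP L (RS φ S u v w) (RS φ Sᶜ u v w)) +
        ((if w = u then 2 ^ (L + 1) * c u else 0) + (if w = v then 2 ^ (L + 1) * c v else 0)) := by
    intro w
    by_cases hwu : w = u
    · subst hwu
      have hz : ∀ T, RS φ T w v w = 0 := fun T => sum_eq_zero fun i _ => rb_left φ i w v
      rw [hz, hz, ss_self, if_pos rfl, if_neg huv, PP_zero]
      have := ss_sq φ S w v
      linear_combination (c w) * this
    · by_cases hwv : w = v
      · subst hwv
        have hz : ∀ T, RS φ T u w w = 0 := fun T => sum_eq_zero fun i _ => rb_right φ i u w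
        rw [hz, hz, ss_self, if_pos rfl, if_neg hwu, PP_zero]
        have := ss_sq φ S u w
        linear_combination (c w) * this
      · rw [if_neg hwu, if_neg hwv]
        have hr := hR u v w huv (Ne.symm hwv) (Ne.symm hwu)
        have h3 := ss_triple φ S hS u v w
        rw [PP_eq L _ _ hr.1 hr.2, ss_comm φ S w v]
        linear_combination (c w) * h3
  have hsum : ss φ S u v * ∑ w, ss φ S u w * c w * ss φ S w v = 2 ^ (L + 1) * (c u + c v) := by
    rw [mul_sum, sum_congr rfl fun w _ => key w, sum_add_distrib, sum_add_distrib,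
      sum_ite_eq' univ u, sum_ite_eq' univ v, if_pos (mem_univ _), if_pos (mem_univ _),
      kill_PP φ S hS L c hc u v]
    ring
  have h2 := ss_sq φ S u v
  calc ∑ w, ss φ S u w * c w * ss φ S w v
      = (ss φ S u v * ss φ S u v) * ∑ w, ss φ S u w * c w * ss φ S w v := by rw [h2, one_mul]
    _ = 2 ^ (L + 1) * (ss φ S u v * (c u + c v)) := by rw [mul_assoc, hsum]; ring

lemma scs_diag (φ : ι → V → Fin 4) (S : Finset ι) (c : V → ℝ) (h0 : ∑ w, c w = 0) (u : V) :
    ∑ w, ss φ S u w * c w * ss φ S w u = 0 := by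
  rw [← h0]
  apply sum_congr rfl
  intro w _
  rw [ss_comm φ S w u]
  linear_combination (c w) * ss_sq φ S u w

lemma c_zero (φ : ι → V → Fin 4) (S : Finset ι) (hS : ∀ i ∈ S, ∀ v, φ i v ≠ 3) (L : ℕ)
    (hL : 1 ≤ L) (c : V → ℝ) (hc : Kill φ S L c)
    (hR : ∀ u v w, u ≠ v → v ≠ w → u ≠ w →
      1 ≤ RS φ S u v w + RS φ Sᶜ u v w ∧ RS φ S u v w + RS φ Sᶜ u v w ≤ L + 1)
    (v0 : V) (hv0 : c v0 = 0) (u : V) : c u = 0 := by
  have h0 := kill_one φ S L c hc
  obtain ⟨K, hK⟩ : ∃ K : ℝ, K = 2 ^ (L + 1) := ⟨_, rfl⟩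
  have hK4 : 4 ≤ K := by
    rw [hK]
    calc (4 : ℝ) = 2 ^ 2 := by norm_num
      _ ≤ 2 ^ (L + 1) := pow_le_pow_right₀ (by norm_num) (by omega)
  have hscs := scs φ S hS L c hc hR
  rw [← hK] at hscs
  set y : V → ℝ := fun w => ss φ S v0 w * c w with hy
  have hSy : ∀ v, ∑ w, y w * ss φ S w v = K * y v := by
    intro v
    by_cases h : v0 = v
    · subst h
      have := scs_diag φ S c h0 v0
      rw [hy]
      simp only
      rw [this, hv0]; ring
    · have := hscs v0 v h
      rw [hy]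
      simp only
      rw [this, hv0]; ring
  have hmat : ∀ v, ∑ w, ss φ S u w * c w * ss φ S w v =
      K * (ss φ S u v * (c u + c v)) - (if v = u then 2 * K * c u else 0) := by
    intro v
    by_cases h : v = u
    · subst h
      rw [scs_diag φ S c h0 v, ss_self, if_pos rfl]; ring
    · rw [hscs u v (Ne.symm h), if_neg h]; ring
  -- compute `∑ v, (∑ w, s u w * c w * s w v) * y v` in two ways
  have e1 : ∑ v, (∑ w, ss φ S u w * c w * ss φ S w v) * y v =
      K * ∑ w, ss φ S u w * c w * y w := by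
    simp_rw [sum_mul]
    rw [sum_comm, mul_sum]
    apply sum_congr rfl
    intro w _
    have : ∑ v, ss φ S u w * c w * ss φ S w v * y v =
        ss φ S u w * c w * ∑ v, y v * ss φ S v w := by
      rw [mul_sum]
      apply sum_congr rfl
      intro v _
      rw [ss_comm φ S v w]; ring
    rw [this, hSy]; ring
  have e2 : ∑ v, (∑ w, ss φ S u w * c w * ss φ S w v) * y v =
      K * (c u * ∑ v, y v * ss φ S v u) + K * (∑ v, ss φ S u v * c v * y v) -
        2 * K * c u * y u := by
    have : ∀ v, (∑ w, ss φ S u w * c w * ss φ S w v) * y v =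
        K * (c u * (y v * ss φ S v u)) + K * (ss φ S u v * c v * y v) -
          (if v = u then 2 * K * c u * y u else 0) := by
      intro v
      rw [hmat v, ss_comm φ S v u]
      by_cases h : v = u
      · subst h; rw [if_pos rfl, if_pos rfl]; ring
      · rw [if_neg h, if_neg h]; ring
    rw [sum_congr rfl fun v _ => this v, sum_sub_distrib, sum_add_distrib, ← mul_sum, ← mul_sum,
      ← mul_sum, sum_ite_eq' univ u, if_pos (mem_univ _)]
  rw [e1, hSy] at e2
  have h8 : (K * (K - 2)) * (c u * y u) = 0 := by linear_combination -e2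
  have hKne : K * (K - 2) ≠ 0 := by
    have : 0 < K * (K - 2) := by nlinarith
    exact this.ne'
  have h8' : c u * y u = 0 := (mul_eq_zero.1 h8).resolve_left hKne
  have h9 : c u * c u = 0 := by
    have h10 : ss φ S v0 u * (c u * y u) = c u * c u := by
      rw [hy]; simp only
      linear_combination (c u * c u) * ss_sq φ S v0 u
    rw [← h10, h8', mul_zero]
  exact mul_self_eq_zero.1 h9

/-- the linear algebra bound -/
theorem core (φ : ι → V → Fin 4) (S : Finset ι) (hS : ∀ i ∈ S, ∀ v, φ i v ≠ 3) (L : ℕ)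
    (hL : 1 ≤ L)
    (hR : ∀ u v w, u ≠ v → v ≠ w → u ≠ w →
      1 ≤ RS φ S u v w + RS φ Sᶜ u v w ∧ RS φ S u v w + RS φ Sᶜ u v w ≤ L + 1) :
    Fintype.card V ≤ (2 * Fintype.card ι + Sᶜ.card + 1) ^ L * (3 * Sᶜ.card + 1) + 1 := by
  classical
  by_contra hlt
  push Not at hlt
  have hV : 0 < Fintype.card V := by omega
  obtain ⟨v0⟩ : Nonempty V := Fintype.card_pos_iff.1 hV
  let A : (V → ℝ) →ₗ[ℝ] ((((Fin L → Option ((ι × Fin 2) ⊕ {i // i ∉ S})) ×
      Option ({i // i ∉ S} × Fin 3)) ⊕ Unit) → ℝ) :=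
    LinearMap.pi (fun k => match k with
      | Sum.inl g => ∑ w, ((∏ j, gen φ S (g.1 j) w) * genN φ S g.2 w) • LinearMap.proj w
      | Sum.inr _ => LinearMap.proj v0)
  have hcardN : Fintype.card {i // i ∉ S} = Sᶜ.card := by
    rw [Fintype.card_subtype]
    congr 1
    ext i
    simp
  have hker : LinearMap.ker A ≠ ⊥ := by
    apply LinearMap.ker_ne_bot_of_finrank_lt
    rw [Module.finrank_fintype_fun_eq_card, Module.finrank_fintype_fun_eq_card]
    simp only [Fintype.card_sum, Fintype.card_fun, Fintype.card_option, Fintype.card_prod,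
      Fintype.card_fin, Fintype.card_unit]
    rw [hcardN, mul_comm (Fintype.card ι) 2, mul_comm Sᶜ.card 3]
    exact hlt
  obtain ⟨c, hcL, hc0⟩ := (Submodule.ne_bot_iff _).1 hker
  rw [LinearMap.mem_ker] at hcL
  have hv0 : c v0 = 0 := by
    have := congrFun hcL (Sum.inr ())
    simpa [A] using this
  have hc : Kill φ S L c := by
    intro g h
    have := congrFun hcL (Sum.inl (g, h))
    simp only [A, LinearMap.pi_apply, LinearMap.sum_apply, Pi.zero_apply, LinearMap.smul_apply,
      LinearMap.proj_apply, smul_eq_mul] at this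
    rw [← this]
    exact sum_congr rfl fun w _ => mul_comm _ _
  exact hc0 (funext fun u => c_zero φ S hS L hL c hc hR v0 hv0 u)

end core

/-- a triple is an edge iff its three colours are different -/
lemma isEdge_iff {n : ℕ} (X : Fin 3 → Finset (Fin n)) (c : Fin n → Fin 3) {u v w : Fin n}
    (hu : ∀ j, u ∈ X j ↔ c u = j) (hv : ∀ j, v ∈ X j ↔ c v = j) (hw : ∀ j, w ∈ X j ↔ c w = j)
    (huv : u ≠ v) (hvw : v ≠ w) (huw : u ≠ w) :
    IsEdge X {u, v, w} ↔ (c u ≠ c v ∧ c v ≠ c w ∧ c u ≠ c w) := by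
  classical
  constructor
  · rintro ⟨x, hx, he⟩
    have mu : u ∈ univ.image x := by rw [← he]; simp
    have mv : v ∈ univ.image x := by rw [← he]; simp
    have mw : w ∈ univ.image x := by rw [← he]; simp
    simp only [mem_image, mem_univ, true_and] at mu mv mw
    obtain ⟨ju, rfl⟩ := mu
    obtain ⟨jv, rfl⟩ := mv
    obtain ⟨jw, rfl⟩ := mw
    rw [(hu ju).1 (hx ju), (hv jv).1 (hx jv), (hw jw).1 (hx jw)]
    exact ⟨fun h => huv (by rw [h]), fun h => hvw (by rw [h]), fun h => huw (by rw [h])⟩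
  · rintro ⟨h1, h2, h3⟩
    have hall : ∀ j : Fin 3, j = c u ∨ j = c v ∨ j = c w := by
      revert h1 h2 h3
      generalize c u = a
      generalize c v = b
      generalize c w = d
      revert a b d
      decide
    refine ⟨fun j => if j = c u then u else if j = c v then v else w, ?_, ?_⟩
    · intro j
      by_cases hj : j = c u
      · simp only [hj, if_true]; exact (hu _).2 rfl
      · by_cases hj' : j = c v
        · show (if j = c u then u else if j = c v then v else w) ∈ X j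
          rw [if_neg hj, if_pos hj', hj']; exact (hv _).2 rfl
        · have hj'' : j = c w := by rcases hall j with h | h | h <;> tauto
          show (if j = c u then u else if j = c v then v else w) ∈ X j
          rw [if_neg hj, if_neg hj', hj'']; exact (hw _).2 rfl
    · ext z
      simp only [mem_insert, mem_singleton, mem_image, mem_univ, true_and]
      constructor
      · rintro (rfl | rfl | rfl)
        · exact ⟨c z, by simp⟩
        · exact ⟨c z, by rw [if_neg (Ne.symm h1), if_pos rfl]⟩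
        · exact ⟨c z, by rw [if_neg (Ne.symm h3), if_neg (Ne.symm h2)]⟩
      · rintro ⟨j, rfl⟩
        split_ifs <;> simp

/-- a triple is an edge iff its three colours are different and none is 3 (outside) -/
lemma isEdge_iff4 {n : ℕ} (X : Fin 3 → Finset (Fin n)) (c : Fin n → Fin 4) {u v w : Fin n}
    (hu : ∀ j : Fin 3, u ∈ X j ↔ c u = j.castSucc) (hv : ∀ j : Fin 3, v ∈ X j ↔ c v = j.castSucc)
    (hw : ∀ j : Fin 3, w ∈ X j ↔ c w = j.castSucc)
    (huv : u ≠ v) (hvw : v ≠ w) (huw : u ≠ w) :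
    IsEdge X {u, v, w} ↔
      ((c u ≠ c v ∧ c v ≠ c w ∧ c u ≠ c w) ∧ c u ≠ 3 ∧ c v ≠ 3 ∧ c w ≠ 3) := by
  classical
  have h3 : ∀ j : Fin 3, j.castSucc ≠ (3 : Fin 4) := by decide
  constructor
  · rintro ⟨x, hx, he⟩
    have mu : u ∈ univ.image x := by rw [← he]; simp
    have mv : v ∈ univ.image x := by rw [← he]; simp
    have mw : w ∈ univ.image x := by rw [← he]; simp
    simp only [mem_image, mem_univ, true_and] at mu mv mw
    obtain ⟨ju, rfl⟩ := mu
    obtain ⟨jv, rfl⟩ := mv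
    obtain ⟨jw, rfl⟩ := mw
    rw [(hu ju).1 (hx ju), (hv jv).1 (hx jv), (hw jw).1 (hx jw)]
    exact ⟨⟨fun h => huv (by rw [Fin.castSucc_injective 3 h]),
      fun h => hvw (by rw [Fin.castSucc_injective 3 h]),
      fun h => huw (by rw [Fin.castSucc_injective 3 h])⟩, h3 _, h3 _, h3 _⟩
  · rintro ⟨⟨h1, h2, h3'⟩, k1, k2, k3⟩
    have hall : ∀ j : Fin 3, j.castSucc = c u ∨ j.castSucc = c v ∨ j.castSucc = c w := by
      revert h1 h2 h3' k1 k2 k3
      generalize c u = a
      generalize c v = b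
      generalize c w = d
      revert a b d
      decide
    have hex : ∀ a : Fin 4, a ≠ 3 → ∃ j : Fin 3, j.castSucc = a := by decide
    refine ⟨fun j => if j.castSucc = c u then u else if j.castSucc = c v then v else w, ?_, ?_⟩
    · intro j
      show (if j.castSucc = c u then u else if j.castSucc = c v then v else w) ∈ X j
      by_cases hj : j.castSucc = c u
      · rw [if_pos hj]; exact (hu _).2 hj.symm
      · by_cases hj' : j.castSucc = c v
        · rw [if_neg hj, if_pos hj']; exact (hv _).2 hj'.symm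
        · have hj'' : j.castSucc = c w := by rcases hall j with h | h | h <;> tauto
          rw [if_neg hj, if_neg hj']; exact (hw _).2 hj''.symm
    · ext z
      simp only [mem_insert, mem_singleton, mem_image, mem_univ, true_and]
      constructor
      · rintro (rfl | rfl | rfl)
        · obtain ⟨j, hj⟩ := hex _ k1
          exact ⟨j, by rw [if_pos hj]⟩
        · obtain ⟨j, hj⟩ := hex _ k2
          exact ⟨j, by rw [hj, if_neg (Ne.symm h1), if_pos rfl]⟩
        · obtain ⟨j, hj⟩ := hex _ k3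
          exact ⟨j, by rw [hj, if_neg (Ne.symm h3'), if_neg (Ne.symm h2)]⟩
      · rintro ⟨j, rfl⟩
        split_ifs <;> simp

open Classical in
/-- the members which meet `W` in all three parts but do not cover `W` -/
noncomputable def bad {n m : ℕ} (X : Fin m → Fin 3 → Finset (Fin n)) (W : Finset (Fin n)) :
    Finset (Fin m) :=
  univ.filter (fun i => (∀ j, ¬ Disjoint (X i j) W) ∧ ¬ ∀ v ∈ W, ∃ j, v ∈ X i j)

theorem onW {n m l : ℕ} (hl : 2 ≤ l) (X : Fin m → Fin 3 → Finset (Fin n))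
    (hX : IsCovering n 3 l m X) (W : Finset (Fin n)) :
    W.card ≤ (2 * m + (bad X W).card + 1) ^ (l - 1) * (3 * (bad X W).card + 1) + 1 := by
  classical
  obtain ⟨_, hd, hcov⟩ := hX
  let ψ : Fin m → Fin n → Fin 4 := fun i v =>
    if ∀ j, ¬ Disjoint (X i j) W then
      (if h : ∃ j, v ∈ X i j then h.choose.castSucc else 3) else 0
  have h3 : ∀ j : Fin 3, j.castSucc ≠ (3 : Fin 4) := by decide
  have hψ : ∀ i, (∀ j, ¬ Disjoint (X i j) W) → ∀ v, ∀ j : Fin 3,
      v ∈ X i j ↔ ψ i v = j.castSucc := by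
    intro i hi v j
    simp only [ψ]
    rw [if_pos hi]
    constructor
    · intro hj
      have hex : ∃ j, v ∈ X i j := ⟨j, hj⟩
      rw [dif_pos hex]
      congr 1
      by_contra hne
      exact Finset.disjoint_left.1 (hd i _ _ hne) hex.choose_spec hj
    · intro h
      by_cases hex : ∃ j, v ∈ X i j
      · rw [dif_pos hex] at h
        rw [← Fin.castSucc_injective 3 h]
        exact hex.choose_spec
      · rw [dif_neg hex] at h
        exact absurd h.symm (h3 j)
  have hψ0 : ∀ i, ¬ (∀ j, ¬ Disjoint (X i j) W) → ∀ v, ψ i v = 0 := by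
    intro i hi v
    simp only [ψ]
    rw [if_neg hi]
  let φ : Fin m → {v // v ∈ W} → Fin 4 := fun i v => ψ i v.1
  have hrb : ∀ i (u v w : {v // v ∈ W}), u ≠ v → v ≠ w → u ≠ w →
      rb φ i u v w = if IsEdge (X i) {u.1, v.1, w.1} then 1 else 0 := by
    intro i u v w huv hvw huw
    by_cases hi : ∀ j, ¬ Disjoint (X i j) W
    · have := isEdge_iff4 (X i) (ψ i) (hψ i hi u.1) (hψ i hi v.1) (hψ i hi w.1)
        (fun h => huv (Subtype.ext h)) (fun h => hvw (Subtype.ext h))
        (fun h => huw (Subtype.ext h))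
      unfold rb
      simp only [this]
      rfl
    · have hi' := hi
      push Not at hi'
      obtain ⟨j, hj⟩ := hi'
      have h1 : rb φ i u v w = 0 := by
        unfold rb
        rw [if_neg]
        rintro ⟨⟨h, _⟩, _⟩
        exact h (by simp only [φ]; rw [hψ0 i hi, hψ0 i hi])
      rw [h1, if_neg]
      rintro ⟨x, hx, he⟩
      have hmem : x j ∈ univ.image x := mem_image_of_mem _ (mem_univ _)
      rw [← he] at hmem
      have hxW : x j ∈ W := by
        simp only [mem_insert, mem_singleton] at hmem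
        rcases hmem with h | h | h <;> rw [h]
        · exact u.2
        · exact v.2
        · exact w.2
      exact Finset.disjoint_left.1 hj (hx j) hxW
  have hS : ∀ i ∈ (bad X W)ᶜ, ∀ v, φ i v ≠ 3 := by
    intro i hi v
    rw [mem_compl] at hi
    by_cases hA : ∀ j, ¬ Disjoint (X i j) W
    · have hcovW : ∀ v ∈ W, ∃ j, v ∈ X i j := by
        by_contra hno
        exact hi (mem_filter.2 ⟨mem_univ _, hA, hno⟩)
      obtain ⟨j, hj⟩ := hcovW v.1 v.2
      have := (hψ i hA v.1 j).1 hj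
      simp only [φ]
      rw [this]
      exact h3 j
    · simp only [φ]
      rw [hψ0 i hA]
      decide
  have hcore := core φ (bad X W)ᶜ hS (l - 1) (by omega) (by
    intro u v w huv hvw huw
    have hcard : ({u.1, v.1, w.1} : Finset (Fin n)).card = 3 := by
      rw [card_eq_three]
      exact ⟨u.1, v.1, w.1, fun h => huv (Subtype.ext h), fun h => huw (Subtype.ext h),
        fun h => hvw (Subtype.ext h), rfl⟩
    have hc := hcov _ hcard
    have hs : RS φ (bad X W)ᶜ u v w + RS φ (bad X W)ᶜᶜ u v w =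
        (univ.filter (fun i => IsEdge (X i) {u.1, v.1, w.1})).card := by
      unfold RS
      rw [sum_add_sum_compl, card_filter]
      exact sum_congr rfl fun i _ => hrb i u v w huv hvw huw
    have hc1 := hc.1
    have hc2 := hc.2
    rw [hs]
    omega)
  rw [compl_compl] at hcore
  simpa using hcore

open Classical in
theorem main {n m l : ℕ} (hl : 2 ≤ l) (X : Fin m → Fin 3 → Finset (Fin n))
    (hX : IsCovering n 3 l m X) :
    n ≤ (2 * m + (univ.filter (fun i => ¬ Spanning (X i))).card + 1) ^ (l - 1) *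
      (3 * (univ.filter (fun i => ¬ Spanning (X i))).card + 1) + 1 := by
  have h := onW hl X hX univ
  have hb : bad X univ = univ.filter (fun i => ¬ Spanning (X i)) := by
    ext i
    simp only [bad, mem_filter, mem_univ, true_and, Spanning]
    constructor
    · intro h; simpa using h.2
    · intro h
      refine ⟨fun j hj => ?_, by simpa using h⟩
      obtain ⟨v, hv⟩ := hX.1 i j
      exact Finset.disjoint_left.1 hj hv (mem_univ v)
  rw [hb] at h
  simpa using h

open Classical in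
theorem proportion (l : ℕ) (hl : 2 ≤ l) (C : ℝ) (hC : 0 < C) : ∃ D : ℝ, 0 < D ∧
    ∀ (n m : ℕ) (X : Fin m → Fin 3 → Finset (Fin n)), 3 ≤ n → IsCovering n 3 l m X →
      (m : ℝ) ≤ C * (n : ℝ) ^ (1 / (l : ℝ)) →
      (n : ℝ) ^ (1 / (l : ℝ)) ≤ D * ((univ.filter (fun i => ¬ Spanning (X i))).card + 1) := by
  refine ⟨2 * (3 * C + 1) ^ (l - 1) * 3, by positivity, fun n m X hn hX hm => ?_⟩
  have h := main hl X hX
  set t := (univ.filter (fun i => ¬ Spanning (X i))).card with ht
  have htm : t ≤ m := by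
    rw [ht]
    exact (card_le_univ _).trans (by simp)
  have hn1 : (1 : ℝ) ≤ n := by exact_mod_cast (by omega : 1 ≤ n)
  set x : ℝ := (n : ℝ) ^ (1 / (l : ℝ)) with hx
  have hx1 : 1 ≤ x := Real.one_le_rpow hn1 (by positivity)
  have hx0 : 0 < x := by linarith
  have hl0 : (l : ℝ) ≠ 0 := by
    have : l ≠ 0 := by omega
    exact_mod_cast this
  have hxl : x ^ l = n := by
    rw [hx, ← Real.rpow_natCast, ← Real.rpow_mul (by positivity), one_div, inv_mul_cancel₀ hl0,
      Real.rpow_one]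
  have h' : (n : ℝ) ≤ (3 * m + 1) ^ (l - 1) * (3 * t + 1) + 1 := by
    have h1 : n ≤ (3 * m + 1) ^ (l - 1) * (3 * t + 1) + 1 := by
      refine h.trans ?_
      gcongr
      omega
    exact_mod_cast h1
  have h3m : (3 * (m : ℝ) + 1) ≤ (3 * C + 1) * x := by nlinarith
  have hpow : (3 * (m : ℝ) + 1) ^ (l - 1) ≤ ((3 * C + 1) * x) ^ (l - 1) :=
    pow_le_pow_left₀ (by positivity) h3m _
  have h2 : (n : ℝ) / 2 ≤ n - 1 := by
    have : (3 : ℝ) ≤ n := by exact_mod_cast hn
    linarith
  have h4 : x ^ l ≤ 2 * (((3 * C + 1) * x) ^ (l - 1) * (3 * t + 1)) := by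
    have h5 : (3 * (m : ℝ) + 1) ^ (l - 1) * (3 * t + 1) ≤
        ((3 * C + 1) * x) ^ (l - 1) * (3 * t + 1) :=
      mul_le_mul_of_nonneg_right hpow (by positivity)
    rw [hxl]
    linarith
  have h6 : x ^ l = x ^ (l - 1) * x := by
    rw [← pow_succ]; congr 1; omega
  rw [h6, mul_pow] at h4
  have h7 : x ^ (l - 1) * x ≤ x ^ (l - 1) * (2 * (3 * C + 1) ^ (l - 1) * (3 * t + 1)) := by
    linarith
  have h8 : x ≤ 2 * (3 * C + 1) ^ (l - 1) * (3 * t + 1) :=
    le_of_mul_le_mul_left h7 (by positivity)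
  refine h8.trans ?_
  have h9 : (0 : ℝ) < 2 * (3 * C + 1) ^ (l - 1) := by positivity
  nlinarith

/-- colour of `a` for the middle value `t` -/
def mid (t a : ℕ) : Fin 3 := if a < t then 0 else if a = t then 1 else 2

lemma mid_iff {a b d t : ℕ} (h1 : a < b) (h2 : b < d) :
    (mid t a ≠ mid t b ∧ mid t b ≠ mid t d ∧ mid t a ≠ mid t d) ↔ t = b := by
  unfold mid
  constructor
  · intro h
    by_contra hne
    rcases lt_or_gt_of_ne hne with hlt | hgt
    · -- t < b < d
      apply h.2.1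
      rw [if_neg (by omega), if_neg (by omega), if_neg (by omega), if_neg (by omega)]
    · apply h.1
      rw [if_pos (by omega), if_pos (by omega)]
  · rintro rfl
    rw [if_pos h1, if_neg (lt_irrefl _), if_pos rfl, if_neg (by omega), if_neg (by omega)]
    decide

/-- spanning coverings with `n - 2` members exist -/
theorem exSpan (n : ℕ) (hn : 3 ≤ n) : ∃ X : Fin (n - 2) → Fin 3 → Finset (Fin n),
    IsCovering n 3 1 (n - 2) X ∧ ∀ i, Spanning (X i) := by
  classical
  refine ⟨fun i j => univ.filter (fun v => mid (i.val + 1) v.val = j), ⟨?_, ?_, ?_⟩, ?_⟩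
  · intro i j
    have hi := i.isLt
    fin_cases j
    · exact ⟨⟨0, by omega⟩, by simp [mid]⟩
    · exact ⟨⟨i.val + 1, by omega⟩, by simp [mid]⟩
    · exact ⟨⟨i.val + 2, by omega⟩, by simp [mid]⟩
  · intro i j j' hjj
    rw [Finset.disjoint_left]
    intro v hv hv'
    exact hjj ((mem_filter.1 hv).2.symm.trans (mem_filter.1 hv').2)
  · intro e he
    obtain ⟨u, v, w, huv, hvw, rfl⟩ : ∃ u v w : Fin n, u < v ∧ v < w ∧ e = {u, v, w} := by
      obtain ⟨x, y, z, hxy, hxz, hyz, rfl⟩ := card_eq_three.1 he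
      rcases lt_or_gt_of_ne hxy with h1 | h1 <;> rcases lt_or_gt_of_ne hxz with h2 | h2 <;>
        rcases lt_or_gt_of_ne hyz with h3 | h3
      · exact ⟨x, y, z, h1, h3, rfl⟩
      · exact ⟨x, z, y, h2, h3, by ext t; simp; tauto⟩
      · exact absurd (h1.trans h3) (not_lt.2 h2.le)
      · exact ⟨z, x, y, h2, h1, by ext t; simp; tauto⟩
      · exact ⟨y, x, z, h1, h2, by ext t; simp; tauto⟩
      · exact absurd (h1.trans h2) (not_lt.2 h3.le)
      · exact ⟨y, z, x, h3, h2, by ext t; simp; tauto⟩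
      · exact ⟨z, y, x, h3, h1, by ext t; simp; tauto⟩
    have hiff : ∀ i : Fin (n - 2),
        IsEdge (fun j => univ.filter (fun v : Fin n => mid (i.val + 1) v.val = j)) {u, v, w} ↔
          i.val + 1 = v.val := by
      intro i
      rw [isEdge_iff _ (fun v : Fin n => mid (i.val + 1) v.val) (by simp) (by simp) (by simp)
        huv.ne hvw.ne (huv.trans hvw).ne]
      exact mid_iff huv hvw
    have hv := v.isLt
    have hw := w.isLt
    have h1 : u.val < v.val := huv
    have h2 : v.val < w.val := hvw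
    have hone : (univ.filter (fun i : Fin (n - 2) =>
        IsEdge (fun j => univ.filter (fun v : Fin n => mid (i.val + 1) v.val = j)) {u, v, w})) =
        {⟨v.val - 1, by omega⟩} := by
      ext i
      simp only [mem_filter, mem_univ, true_and, mem_singleton, hiff]
      rw [Fin.ext_iff]
      simp only
      omega
    rw [hone]
    simp
  · intro i v
    exact ⟨mid (i.val + 1) v.val, by simp⟩

lemma mid_perm {t a b d : ℕ}
    (h : mid t a ≠ mid t b ∧ mid t b ≠ mid t d ∧ mid t a ≠ mid t d) :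
    (a < t ∧ b = t ∧ t < d) ∨ (a < t ∧ d = t ∧ t < b) ∨ (b < t ∧ a = t ∧ t < d) ∨
      (b < t ∧ d = t ∧ t < a) ∨ (d < t ∧ a = t ∧ t < b) ∨ (d < t ∧ b = t ∧ t < a) := by
  unfold mid at h
  split_ifs at h <;> omega

lemma mid_ex {a b d : ℕ} (hab : a ≠ b) (hbd : b ≠ d) (had : a ≠ d) :
    ∃ t, (t = a ∨ t = b ∨ t = d) ∧
      (mid t a ≠ mid t b ∧ mid t b ≠ mid t d ∧ mid t a ≠ mid t d) := by
  rcases lt_or_gt_of_ne hab with h1 | h1 <;> rcases lt_or_gt_of_ne had with h2 | h2 <;>
    rcases lt_or_gt_of_ne hbd with h3 | h3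
  · obtain ⟨k1, k2, k3⟩ := (mid_iff (t := b) h1 h3).2 rfl
    exact ⟨b, by simp, k1, k2, k3⟩
  · obtain ⟨k1, k2, k3⟩ := (mid_iff (t := d) h2 h3).2 rfl
    exact ⟨d, by simp, k3, k2.symm, k1⟩
  · exact absurd (h1.trans h3) (not_lt.2 h2.le)
  · obtain ⟨k1, k2, k3⟩ := (mid_iff (t := a) h2 h1).2 rfl
    exact ⟨a, by simp, k2, k3.symm, k1.symm⟩
  · obtain ⟨k1, k2, k3⟩ := (mid_iff (t := a) h1 h2).2 rfl
    exact ⟨a, by simp, k1.symm, k3, k2⟩
  · exact absurd (h1.trans h2) (not_lt.2 h3.le)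
  · obtain ⟨k1, k2, k3⟩ := (mid_iff (t := d) h3 h2).2 rfl
    exact ⟨d, by simp, k3.symm, k1, k2.symm⟩
  · obtain ⟨k1, k2, k3⟩ := (mid_iff (t := b) h3 h1).2 rfl
    exact ⟨b, by simp, k2.symm, k1.symm, k3.symm⟩

/-- spanning coverings from words such that every three of them have a coordinate with three
different letters -/
theorem build (n l B : ℕ) (g : Fin l → Fin n → ℕ) (hB : ∀ i v, g i v < B)
    (hg : ∀ x y z, x ≠ y → y ≠ z → x ≠ z →
      ∃ i, g i x ≠ g i y ∧ g i y ≠ g i z ∧ g i x ≠ g i z) :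
    ∃ m ≤ l * B, ∃ X : Fin m → Fin 3 → Finset (Fin n),
      IsCovering n 3 l m X ∧ ∀ i, Spanning (X i) := by
  classical
  let P : Fin l × Fin B → Prop := fun p => ∀ j, ∃ v, mid p.2.val (g p.1 v) = j
  let e := (Fintype.equivFin {p // P p}).symm
  refine ⟨Fintype.card {p // P p}, ?_,
    fun k j => univ.filter (fun v => mid (e k).1.2.val (g (e k).1.1 v) = j), ⟨?_, ?_, ?_⟩, ?_⟩
  · calc Fintype.card {p // P p} ≤ Fintype.card (Fin l × Fin B) := Fintype.card_subtype_le _
      _ = l * B := by simp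
  · intro k j
    obtain ⟨v, hv⟩ := (e k).2 j
    exact ⟨v, mem_filter.2 ⟨mem_univ _, hv⟩⟩
  · intro k j j' hjj
    rw [Finset.disjoint_left]
    intro v hv hv'
    exact hjj ((mem_filter.1 hv).2.symm.trans (mem_filter.1 hv').2)
  · intro s hs
    obtain ⟨u, v, w, huv, huw, hvw, rfl⟩ := card_eq_three.1 hs
    have hiff : ∀ k, IsEdge (fun j => univ.filter
        (fun v => mid (e k).1.2.val (g (e k).1.1 v) = j)) {u, v, w} ↔
        (mid (e k).1.2.val (g (e k).1.1 u) ≠ mid (e k).1.2.val (g (e k).1.1 v) ∧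
          mid (e k).1.2.val (g (e k).1.1 v) ≠ mid (e k).1.2.val (g (e k).1.1 w) ∧
          mid (e k).1.2.val (g (e k).1.1 u) ≠ mid (e k).1.2.val (g (e k).1.1 w)) := fun k =>
      isEdge_iff _ (fun v => mid (e k).1.2.val (g (e k).1.1 v)) (by simp) (by simp) (by simp)
        huv hvw huw
    constructor
    · rw [Nat.one_le_iff_ne_zero, ne_eq, card_eq_zero, ← ne_eq, ← nonempty_iff_ne_empty]
      obtain ⟨i, h1, h2, h3⟩ := hg u v w huv hvw huw
      obtain ⟨t, ht, hd⟩ := mid_ex h1 h2 h3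
      have htB : t < B := by rcases ht with rfl | rfl | rfl <;> exact hB _ _
      have hP : P (i, ⟨t, htB⟩) := by
        intro j
        have h3' : j = mid t (g i u) ∨ j = mid t (g i v) ∨ j = mid t (g i w) := by
          revert hd
          generalize mid t (g i u) = a
          generalize mid t (g i v) = b
          generalize mid t (g i w) = d
          revert a b d j
          decide
        rcases h3' with h | h | h
        · exact ⟨u, h.symm⟩
        · exact ⟨v, h.symm⟩
        · exact ⟨w, h.symm⟩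
      refine ⟨e.symm ⟨_, hP⟩, ?_⟩
      rw [mem_filter]
      refine ⟨mem_univ _, (hiff _).2 ?_⟩
      rw [Equiv.apply_symm_apply]
      exact hd
    · calc _ ≤ (univ : Finset (Fin l)).card := by
            apply card_le_card_of_injOn (fun k => (e k).1.1) (fun _ _ => by simp)
            intro k hk k' hk' hkk
            have a1 := mid_perm ((hiff k).1 (mem_filter.1 hk).2)
            have a2 := mid_perm ((hiff k').1 (mem_filter.1 hk').2)
            simp only at hkk
            rw [← hkk] at a2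
            have ht : (e k).1.2.val = (e k').1.2.val := by
              rcases a1 with a | a | a | a | a | a <;> rcases a2 with b | b | b | b | b | b <;>
                omega
            apply e.injective
            apply Subtype.ext
            exact Prod.ext hkk (Fin.ext ht)
        _ = l := by simp
  · intro k v
    exact ⟨mid (e k).1.2.val (g (e k).1.1 v), by simp⟩

theorem order3 (N n : ℕ) (hn : n ≤ N * rothNumberNat N) :
    ∃ m ≤ 9 * N, ∃ X : Fin m → Fin 3 → Finset (Fin n),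
      IsCovering n 3 3 m X ∧ ∀ i, Spanning (X i) := by
  classical
  obtain ⟨A, hA, hcard, hfree⟩ := rothNumberNat_spec N
  obtain ⟨f⟩ : Nonempty (Fin n ↪ Fin N × A) := by
    apply Function.Embedding.nonempty_of_card_le
    rw [Fintype.card_fin, Fintype.card_prod, Fintype.card_fin, Fintype.card_coe, hcard]
    exact hn
  have hlt : ∀ a : A, a.val < N := fun a => mem_range.1 (hA a.2)
  obtain ⟨m, hm, hX⟩ := build n 3 (3 * N) (fun i v => (f v).1.val + i.val * (f v).2.val) (by
    intro i v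
    have h1 := (f v).1.isLt
    have h2 := hlt (f v).2
    have h3 : i.val ≤ 2 := by omega
    have h4 : i.val * (f v).2.val ≤ 2 * (f v).2.val := Nat.mul_le_mul_right _ h3
    omega) (by
    intro x y z hxy hyz hxz
    have nxy : ¬ ((f x).1.val = (f y).1.val ∧ (f x).2.val = (f y).2.val) := fun h =>
      hxy (f.injective (Prod.ext (Fin.ext h.1) (Subtype.ext h.2)))
    have nyz : ¬ ((f y).1.val = (f z).1.val ∧ (f y).2.val = (f z).2.val) := fun h =>
      hyz (f.injective (Prod.ext (Fin.ext h.1) (Subtype.ext h.2)))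
    have nxz : ¬ ((f x).1.val = (f z).1.val ∧ (f x).2.val = (f z).2.val) := fun h =>
      hxz (f.injective (Prod.ext (Fin.ext h.1) (Subtype.ext h.2)))
    have ap : ∀ p q r : Fin n, (f p).2.val + (f r).2.val = (f q).2.val + (f q).2.val →
        (f p).2.val = (f q).2.val := fun p q r h =>
      hfree (f p).2.2 (f q).2.2 (f r).2.2 h
    have a1 := ap x y z
    have a2 := ap x z y
    have a3 := ap y x z
    have a4 := ap y z x
    have a5 := ap z x y
    have a6 := ap z y x
    by_contra hcon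
    push Not at hcon
    have c0 := hcon 0
    have c1 := hcon 1
    have c2 := hcon 2
    simp only [Fin.val_zero, Fin.val_one, Fin.val_two, zero_mul, add_zero, one_mul] at c0 c1 c2
    generalize (f x).1.val = x1 at *
    generalize (f y).1.val = y1 at *
    generalize (f z).1.val = z1 at *
    generalize (f x).2.val = xa at *
    generalize (f y).2.val = ya at *
    generalize (f z).2.val = za at *
    have d0 : x1 = y1 ∨ y1 = z1 ∨ x1 = z1 := by
      by_cases h : x1 = y1
      · exact Or.inl h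
      · by_cases h' : y1 = z1
        · exact Or.inr (Or.inl h')
        · exact Or.inr (Or.inr (c0 h h'))
    have d1 : x1 + xa = y1 + ya ∨ y1 + ya = z1 + za ∨ x1 + xa = z1 + za := by
      by_cases h : x1 + xa = y1 + ya
      · exact Or.inl h
      · by_cases h' : y1 + ya = z1 + za
        · exact Or.inr (Or.inl h')
        · exact Or.inr (Or.inr (c1 h h'))
    have d2 : x1 + 2 * xa = y1 + 2 * ya ∨ y1 + 2 * ya = z1 + 2 * za ∨
        x1 + 2 * xa = z1 + 2 * za := by
      by_cases h : x1 + 2 * xa = y1 + 2 * ya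
      · exact Or.inl h
      · by_cases h' : y1 + 2 * ya = z1 + 2 * za
        · exact Or.inr (Or.inl h')
        · exact Or.inr (Or.inr (c2 h h'))
    clear c0 c1 c2 hcon ap hlt
    rcases d0 with d0 | d0 | d0 <;> rcases d1 with d1 | d1 | d1 <;>
      rcases d2 with d2 | d2 | d2 <;> omega)
  exact ⟨m, by omega, hX⟩

theorem order3_eps (ε : ℝ) (hε : 0 < ε) : ∃ C : ℝ, 0 < C ∧ ∀ n : ℕ, 3 ≤ n →
    ∃ (m : ℕ) (X : Fin m → Fin 3 → Finset (Fin n)), (m : ℝ) ≤ C * (n : ℝ) ^ (1 / 2 + ε) ∧
      IsCovering n 3 3 m X ∧ ∀ i, Spanning (X i) := by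
  obtain ⟨δ, hδ0, hδ1, hδε⟩ : ∃ δ : ℝ, 0 < δ ∧ δ ≤ 1 ∧ δ ≤ ε :=
    ⟨min ε 1, lt_min hε one_pos, min_le_right _ _, min_le_left _ _⟩
  set E : ℝ := Real.exp (4 / δ) with hE
  have hE1 : 1 ≤ E := Real.one_le_exp (by positivity)
  have hE0 : 0 < E := by linarith
  have h2δ : 0 < 2 - δ := by linarith
  refine ⟨18 * E ^ (1 / (2 - δ)), by positivity, fun n hn => ?_⟩
  have hn1 : (1 : ℝ) ≤ n := by exact_mod_cast (by omega : 1 ≤ n)
  set y : ℝ := ((n : ℝ) * E) ^ (1 / (2 - δ)) with hy
  have hnE : 1 ≤ (n : ℝ) * E := by nlinarith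
  have hy1 : 1 ≤ y := Real.one_le_rpow hnE (by positivity)
  set N : ℕ := ⌈y⌉₊ with hN
  have hNy : y ≤ N := Nat.le_ceil y
  have hN2 : (N : ℝ) ≤ 2 * y := by
    have := Nat.ceil_lt_add_one (by linarith : 0 ≤ y)
    linarith
  have hN0 : (0 : ℝ) < N := by linarith
  have hN1 : (1 : ℝ) ≤ N := by linarith
  have hroth := Behrend.roth_lower_bound (N := N)
  have hlog : 0 ≤ Real.log N := Real.log_nonneg hN1
  have hsq : 4 * √(Real.log N) ≤ δ * Real.log N + 4 / δ := by
    have hs := Real.sq_sqrt hlog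
    have h1 : 0 ≤ (δ * √(Real.log N) - 2) ^ 2 / δ := by positivity
    have h2 : (δ * √(Real.log N) - 2) ^ 2 / δ =
        δ * (√(Real.log N)) ^ 2 + 4 / δ - 4 * √(Real.log N) := by
      field_simp
      ring
    rw [h2, hs] at h1
    linarith
  have hexp : (N : ℝ) ^ (-δ) * E⁻¹ ≤ Real.exp (-4 * √(Real.log N)) := by
    rw [Real.rpow_def_of_pos hN0, hE, ← Real.exp_neg, ← Real.exp_add]
    apply Real.exp_le_exp.2
    linarith
  have hbig : (n : ℝ) ≤ (N : ℝ) * (rothNumberNat N : ℝ) := by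
    have e1 : (n : ℝ) * E = y ^ (2 - δ) := by
      rw [hy, ← Real.rpow_mul (by positivity), one_div, inv_mul_cancel₀ h2δ.ne', Real.rpow_one]
    have e2 : y ^ (2 - δ) ≤ (N : ℝ) ^ (2 - δ) :=
      Real.rpow_le_rpow (by linarith) hNy h2δ.le
    have e3 : (N : ℝ) ^ (2 - δ) = (N : ℝ) * N * (N : ℝ) ^ (-δ) := by
      rw [sub_eq_add_neg, Real.rpow_add hN0, Real.rpow_two, sq]
    have e4 : (N : ℝ) * ((N : ℝ) * ((N : ℝ) ^ (-δ) * E⁻¹)) ≤
        (N : ℝ) * (rothNumberNat N : ℝ) := by
      apply mul_le_mul_of_nonneg_left _ hN0.le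
      exact (mul_le_mul_of_nonneg_left hexp hN0.le).trans hroth
    have e5 : (n : ℝ) = (n : ℝ) * E * E⁻¹ := by field_simp
    calc (n : ℝ) = (n : ℝ) * E * E⁻¹ := e5
      _ ≤ (N : ℝ) ^ (2 - δ) * E⁻¹ := by
          rw [e1]; exact mul_le_mul_of_nonneg_right e2 (by positivity)
      _ = (N : ℝ) * ((N : ℝ) * ((N : ℝ) ^ (-δ) * E⁻¹)) := by rw [e3]; ring
      _ ≤ _ := e4
  obtain ⟨m, hm, X, hX, hS⟩ := order3 N n (by exact_mod_cast hbig)
  refine ⟨m, X, ?_, hX, hS⟩
  have hm' : (m : ℝ) ≤ 9 * N := by exact_mod_cast hm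
  have hyn : y = (n : ℝ) ^ (1 / (2 - δ)) * E ^ (1 / (2 - δ)) := by
    rw [hy, Real.mul_rpow (by positivity) hE0.le]
  have hexpo : 1 / (2 - δ) ≤ 1 / 2 + ε := by
    rw [div_le_iff₀ h2δ]
    nlinarith
  have hnp : (n : ℝ) ^ (1 / (2 - δ)) ≤ (n : ℝ) ^ (1 / 2 + ε) :=
    Real.rpow_le_rpow_of_exponent_le hn1 hexpo
  have hEp : 0 < E ^ (1 / (2 - δ)) := by positivity
  calc (m : ℝ) ≤ 18 * y := by linarith
    _ = 18 * E ^ (1 / (2 - δ)) * (n : ℝ) ^ (1 / (2 - δ)) := by rw [hyn]; ring
    _ ≤ 18 * E ^ (1 / (2 - δ)) * (n : ℝ) ^ (1 / 2 + ε) :=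
        mul_le_mul_of_nonneg_left hnp (by positivity)

open Classical in
/-- Let `l ≥ 2` and let `X` be a covering of order `l` of the complete 3-graph on `n` vertices by
`m` complete 3-partite 3-graphs.
* If `t` members meet `W` in all three parts without covering `W` (`bad X W`), then
  `|W| ≤ (2m + t + 1) ^ (l - 1) * (3t + 1) + 1`.
* In particular `n ≤ (2m + t + 1) ^ (l - 1) * (3t + 1) + 1` if `t` members are not spanning, so
  `n ≤ (2m + 1) ^ (l - 1) + 1` if all members are spanning.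
* If `m ≤ C n ^ (1 / l)`, then the number of non-spanning members is at least
  `n ^ (1 / l) / D - 1`, with `D = D (l, C)`: a positive proportion of all members.
For `l = 2` and `l = 3` the exponent for spanning coverings is sharp: spanning coverings of order 2
with `n - 2` members, and of order 3 with `C n ^ (1 / 2 + ε)` members, exist. -/
theorem result :
    (∀ (n m l : ℕ) (X : Fin m → Fin 3 → Finset (Fin n)), 2 ≤ l → IsCovering n 3 l m X →
      (∀ W : Finset (Fin n),
        W.card ≤ (2 * m + (bad X W).card + 1) ^ (l - 1) * (3 * (bad X W).card + 1) + 1) ∧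
      n ≤ (2 * m + (univ.filter (fun i => ¬ Spanning (X i))).card + 1) ^ (l - 1) *
        (3 * (univ.filter (fun i => ¬ Spanning (X i))).card + 1) + 1 ∧
      ((∀ i, Spanning (X i)) → n ≤ (2 * m + 1) ^ (l - 1) + 1)) ∧
    (∀ l : ℕ, 2 ≤ l → ∀ C : ℝ, 0 < C → ∃ D : ℝ, 0 < D ∧
      ∀ (n m : ℕ) (X : Fin m → Fin 3 → Finset (Fin n)), 3 ≤ n → IsCovering n 3 l m X →
        (m : ℝ) ≤ C * (n : ℝ) ^ (1 / (l : ℝ)) →
        (n : ℝ) ^ (1 / (l : ℝ)) ≤
          D * ((univ.filter (fun i => ¬ Spanning (X i))).card + 1)) ∧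
    (∀ n : ℕ, 3 ≤ n → ∃ X : Fin (n - 2) → Fin 3 → Finset (Fin n),
      IsCovering n 3 2 (n - 2) X ∧ ∀ i, Spanning (X i)) ∧
    (∀ ε : ℝ, 0 < ε → ∃ C : ℝ, 0 < C ∧ ∀ n : ℕ, 3 ≤ n →
      ∃ (m : ℕ) (X : Fin m → Fin 3 → Finset (Fin n)), (m : ℝ) ≤ C * (n : ℝ) ^ (1 / 2 + ε) ∧
        IsCovering n 3 3 m X ∧ ∀ i, Spanning (X i)) := by
  refine ⟨fun n m l X hl hX => ⟨fun W => onW hl X hX W, main hl X hX, fun hsp => ?_⟩,
    proportion, ?_, order3_eps⟩
  · have h := main hl X hX
    have h0 : (univ.filter (fun i => ¬ Spanning (X i))).card = 0 := by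
      rw [card_eq_zero, filter_eq_empty_iff]
      intro i _ hi
      exact hi (hsp i)
    rw [h0] at h
    simpa using h
  · intro n hn
    obtain ⟨X, ⟨h1, h2, h3⟩, h4⟩ := exSpan n hn
    exact ⟨X, ⟨h1, h2, fun e he => ⟨(h3 e he).1, (h3 e he).2.trans (by norm_num)⟩⟩, h4⟩

end Pool.Agent.Results.MP_f91e62_co.SpanningMembers
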